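import Pool.Agent.W2helper25.FBC.Crit

/-!
Block matrices used for the tubular groups.
-/

set_option autoImplicit false
set_option linter.unusedSectionVars false
set_option linter.unusedSimpArgs false

namespace Pool.Agent.W2helper25.FBC

open Matrix

variable {ι : Type} [Fintype ι] [DecidableEq ι]

/-- Direct sum of the unipotent matrices with upper right entries `f c`. -/
def U (f : ι → ℚ) : Matrix (ι ⊕ ι) (ι ⊕ ι) ℚ := fromBlocks 1 (diagonal f) 0 1

/-- Direct sum of the matrices `(s c, d c; 0, 1)`. -/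
def Ms (s d : ι → ℚ) : Matrix (ι ⊕ ι) (ι ⊕ ι) ℚ := fromBlocks (diagonal s) (diagonal d) 0 1

/-- Permutation of the blocks. -/
def Q (σ : Equiv.Perm ι) : Matrix (ι ⊕ ι) (ι ⊕ ι) ℚ :=
  fromBlocks (σ.permMatrix ℚ) 0 0 (σ.permMatrix ℚ)

/-- The column vector of a site. -/
def psi (c : ι) (b : ℚ) : ι ⊕ ι → ℚ := Sum.elim (Pi.single c b) (Pi.single c 1)

/-- The row vector of a site. -/
def theta (c : ι) (b : ℚ) : ι ⊕ ι → ℚ :=
  Sum.elim (Pi.single c 1) (fun c' => if c' = c then -b else 1)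

/-- The fixed start vector. -/
def w0 : ι ⊕ ι → ℚ := Sum.elim (fun _ => 1) (fun _ => 0)

theorem U_mul (f g : ι → ℚ) : U f * U g = U (f + g) := by
  simp [U, fromBlocks_multiply, diagonal_add, add_comm]

theorem U_zero : U (0 : ι → ℚ) = 1 := by
  simp [U, ← fromBlocks_one]

theorem Ms_mul (s d s' d' : ι → ℚ) : Ms s d * Ms s' d' = Ms (s * s') (s * d' + d) := by
  simp [Ms, fromBlocks_multiply, diagonal_mul_diagonal, diagonal_add]

theorem Ms_U (s d f : ι → ℚ) : Ms s d * U f = Ms s (s * f + d) := by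
  simp [Ms, U, fromBlocks_multiply, diagonal_mul_diagonal, diagonal_add]

theorem U_Ms (s d g : ι → ℚ) : U g * Ms s d = Ms s (d + g) := by
  simp [Ms, U, fromBlocks_multiply, diagonal_add]

theorem Ms_one_zero : Ms (1 : ι → ℚ) 0 = 1 := by
  have h1 : diagonal (1 : ι → ℚ) = 1 := diagonal_one
  simp [Ms, ← fromBlocks_one, h1]

theorem Q_mul (σ τ : Equiv.Perm ι) : Q σ * Q τ = Q (τ * σ) := by
  simp [Q, fromBlocks_multiply, Matrix.permMatrix_mul]

theorem Q_one : Q (1 : Equiv.Perm ι) = 1 := by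
  simp [Q, ← fromBlocks_one]

theorem perm_diag (σ : Equiv.Perm ι) (f : ι → ℚ) :
    σ.permMatrix ℚ * diagonal f = diagonal (f ∘ σ) * σ.permMatrix ℚ := by
  ext i j
  rw [mul_diagonal, diagonal_mul]
  simp only [Equiv.Perm.permMatrix, Equiv.toPEquiv_apply, PEquiv.toMatrix_apply, Function.comp]
  by_cases h : σ i = j
  · simp [h]
  · simp [h]

theorem Q_U (σ : Equiv.Perm ι) (f : ι → ℚ) : Q σ * U f = U (f ∘ σ) * Q σ := by
  simp [Q, U, fromBlocks_multiply, perm_diag]

theorem U_psi (f : ι → ℚ) (c : ι) (b : ℚ) : U f *ᵥ psi c b = psi c (b + f c) := by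
  ext x
  rcases x with x | x
  · by_cases h : x = c
    · subst h; simp [U, psi, fromBlocks_mulVec, mulVec_diagonal]
    · simp [U, psi, fromBlocks_mulVec, mulVec_diagonal, h]
  · simp [U, psi, fromBlocks_mulVec, Matrix.one_apply, Pi.single_apply]

theorem Ms_psi (s d : ι → ℚ) (c : ι) (b : ℚ) : Ms s d *ᵥ psi c b = psi c (s c * b + d c) := by
  ext x
  rcases x with x | x
  · by_cases h : x = c
    · subst h; simp [Ms, psi, fromBlocks_mulVec]; ring
    · simp [Ms, psi, fromBlocks_mulVec, h]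
  · simp [Ms, psi, fromBlocks_mulVec, Matrix.one_apply, Pi.single_apply]

theorem Q_psi (σ : Equiv.Perm ι) (c : ι) (b : ℚ) : Q σ *ᵥ psi (σ c) b = psi c b := by
  have key : ∀ (v : ι → ℚ) (x : ι), (σ.permMatrix ℚ *ᵥ v) x = v (σ x) := by
    intro v x
    rw [Matrix.permMatrix_mulVec]
    rfl
  ext x
  rcases x with x | x
  · simp [Q, psi, fromBlocks_mulVec, key, Pi.single_apply]
  · simp [Q, psi, fromBlocks_mulVec, key, Pi.single_apply]

theorem theta_U (f : ι → ℚ) (c : ι) (b : ℚ) : theta c b ᵥ* U f = theta c (b - f c) := by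
  ext x
  rcases x with x | x
  · simp [U, theta, vecMul_fromBlocks]
  · by_cases h : x = c
    · subst h; simp [U, theta, vecMul_fromBlocks, vecMul_diagonal]; ring
    · simp [U, theta, vecMul_fromBlocks, vecMul_diagonal, h]

theorem theta_Ms (s : ι → ℚ) (c : ι) (b e : ℚ) (hs : s c = 1) :
    theta c b ᵥ* Ms s (Pi.single c e) = theta c (b - e) := by
  ext x
  rcases x with x | x
  · by_cases h : x = c
    · subst h; simp [Ms, theta, vecMul_fromBlocks, vecMul_diagonal, hs]
    · simp [Ms, theta, vecMul_fromBlocks, vecMul_diagonal, h]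
  · by_cases h : x = c
    · subst h; simp [Ms, theta, vecMul_fromBlocks, vecMul_diagonal]; ring
    · simp [Ms, theta, vecMul_fromBlocks, vecMul_diagonal, h]

theorem theta_Q (σ : Equiv.Perm ι) (c : ι) (b : ℚ) : theta c b ᵥ* Q σ = theta (σ c) b := by
  have key : ∀ (v : ι → ℚ) (x : ι), (v ᵥ* σ.permMatrix ℚ) x = v (σ.symm x) := by
    intro v x
    rw [Matrix.vecMul_permMatrix]
    rfl
  ext x
  rcases x with x | x
  · simp [Q, theta, vecMul_fromBlocks, Pi.single_apply, eq_comm]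
  · simp [Q, theta, vecMul_fromBlocks, key, Equiv.symm_apply_eq]

theorem theta_psi (c c' : ι) (b b' : ℚ) :
    theta c b ⬝ᵥ psi c' b' = if c' = c then b' - b else 1 := by
  by_cases h : c' = c
  · subst h; simp [theta, psi, dotProduct_block]; ring
  · simp [theta, psi, dotProduct_block, h]

theorem U_w0 (f : ι → ℚ) : U f *ᵥ (w0 : ι ⊕ ι → ℚ) = w0 := by
  ext x
  have h0 : (fun _ : ι => (0 : ℚ)) = 0 := rfl
  rcases x with x | x
  · simp [U, w0, fromBlocks_mulVec, h0]
  · simp [U, w0, fromBlocks_mulVec]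

theorem theta_w0 (c : ι) (b : ℚ) : theta c b ⬝ᵥ (w0 : ι ⊕ ι → ℚ) = 1 := by
  simp [theta, w0, dotProduct_block]

theorem psi_ne_zero (c : ι) (b : ℚ) : psi c b ≠ 0 := by
  intro h
  have := congrFun h (Sum.inr c)
  simp [psi] at this

theorem theta_ne_zero (c : ι) (b : ℚ) : theta c b ≠ 0 := by
  intro h
  have := congrFun h (Sum.inl c)
  simp [theta] at this

theorem U_injective {f g : ι → ℚ} (h : U f = U g) : f = g := by
  have := (fromBlocks_inj.1 h).2.1
  exact diagonal_injective this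

end Pool.Agent.W2helper25.FBC
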