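import Pool.Agent.W2helper25.FBC.Top

/-!
A criterion for faithfulness of a representation of `F ⋊ ℤ`.
-/

set_option autoImplicit false

namespace Pool.Agent.W2helper25.FBC

open Matrix

variable {k : Type*} [Field k] {K : Type*} [Field K] [Algebra k K]
  {m : Type*} [Fintype m] [DecidableEq m] {I : Type*}

/-- The unit attached to a letter. -/
noncomputable def letterUnit (P0 P1 : I × Bool → Matrix m m k) (z : K)
    (h1 : ∀ i, letterMat P0 P1 z (i, true) * letterMat P0 P1 z (i, false) = 1)
    (h2 : ∀ i, letterMat P0 P1 z (i, false) * letterMat P0 P1 z (i, true) = 1) (i : I) :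
    GL m K :=
  ⟨letterMat P0 P1 z (i, true), letterMat P0 P1 z (i, false), h1 i, h2 i⟩

/-- Value of the homomorphism of the free group on a word. -/
theorem lift_mk (P0 P1 : I × Bool → Matrix m m k) (z : K)
    (h1 : ∀ i, letterMat P0 P1 z (i, true) * letterMat P0 P1 z (i, false) = 1)
    (h2 : ∀ i, letterMat P0 P1 z (i, false) * letterMat P0 P1 z (i, true) = 1)
    (L : List (I × Bool)) :
    ((FreeGroup.lift (letterUnit P0 P1 z h1 h2) (FreeGroup.mk L) : GL m K) : Matrix m m K)
      = (L.map (letterMat P0 P1 z)).prod := by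
  induction L with
  | nil => simp [← FreeGroup.one_eq_mk]
  | cons a L ih =>
    have : FreeGroup.mk (a :: L) = FreeGroup.mk [a] * FreeGroup.mk L := by
      rw [FreeGroup.mul_mk]; rfl
    rw [this, map_mul, Units.val_mul, ih, List.map_cons, List.prod_cons]
    congr 1
    rcases a with ⟨i, b⟩
    cases b
    · simp [letterUnit]
    · simp [letterUnit]

/-- Compatibility of the action, checked on the generator of the integers and the basis. -/
theorem compat {I G : Type*} [Group G] (φ : Multiplicative ℤ →* MulAut (FreeGroup I))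
    (f : FreeGroup I →* G) (t : G)
    (h : ∀ i, f (φ (Multiplicative.ofAdd 1) (FreeGroup.of i)) = t * f (FreeGroup.of i) * t⁻¹) :
    ∀ g : Multiplicative ℤ, f.comp (φ g).toMonoidHom
      = (MulAut.conj (zpowersHom G t g)).toMonoidHom.comp f := by
  have key : ∀ x : FreeGroup I, f (φ (Multiplicative.ofAdd 1) x) = t * f x * t⁻¹ := by
    intro x
    have : f.comp (φ (Multiplicative.ofAdd 1)).toMonoidHom = (MulAut.conj t).toMonoidHom.comp f := by
      ext i
      simpa using h i
    have h2 := DFunLike.congr_fun this x
    simpa using h2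
  let S : Subgroup (Multiplicative ℤ) :=
    { carrier := {g | ∀ x, f (φ g x) = (zpowersHom G t g) * f x * (zpowersHom G t g)⁻¹}
      one_mem' := by intro x; simp
      mul_mem' := by
        intro a b ha hb x
        simp only [Set.mem_ofPred_eq] at ha hb
        rw [map_mul, MulAut.mul_apply, ha, hb, map_mul]
        group
      inv_mem' := by
        intro a ha x
        simp only [Set.mem_ofPred_eq] at ha
        have := ha (φ a⁻¹ x)
        rw [map_inv, MulAut.apply_inv_self] at this
        rw [map_inv, map_inv, this]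
        group }
  have hS : ∀ g : Multiplicative ℤ, g ∈ S := by
    intro g
    have h1 : Multiplicative.ofAdd (1 : ℤ) ∈ S := by
      intro x
      simpa using key x
    have : g = (Multiplicative.ofAdd (1 : ℤ)) ^ (Multiplicative.toAdd g) := by
      rw [← ofAdd_zsmul]; simp
    rw [this]
    exact S.zpow_mem h1 _
  intro g
  apply FreeGroup.ext_hom
  intro i
  have := hS g (FreeGroup.of i)
  simp only [MonoidHom.comp_apply, MulEquiv.toMonoidHom_eq_coe, MonoidHom.coe_coe,
    MulAut.conj_apply]
  exact this

/-- The criterion. -/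
theorem criterion (Y : I → Prop) [DecidableEq I]
    (P0 P1 : I × Bool → Matrix m m k) (z : K) (hz : Transcendental k z⁻¹)
    (h1 : ∀ i, letterMat P0 P1 z (i, true) * letterMat P0 P1 z (i, false) = 1)
    (h2 : ∀ i, letterMat P0 P1 z (i, false) * letterMat P0 P1 z (i, true) = 1)
    (hP : ∀ l : I × Bool, ¬ Y l.1 → P1 l = 0)
    (T : ℤ → Matrix m m k) (t : GL m K)
    (hT : ∀ l : ℤ, ((t ^ l : GL m K) : Matrix m m K) = (T l).map (algebraMap k K))
    (φ : Multiplicative ℤ →* MulAut (FreeGroup I))
    (hφ : ∀ i, FreeGroup.lift (letterUnit P0 P1 z h1 h2) (φ (Multiplicative.ofAdd 1)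
      (FreeGroup.of i)) = t * letterUnit P0 P1 z h1 h2 i * t⁻¹)
    (htop : ∀ L : List (I × Bool), FreeGroup.IsReduced L → (∃ x ∈ L, Y x.1) →
      (L.map (topMat Y P0 P1)).prod ≠ 0)
    (hbase : ∀ (L : List (I × Bool)) (l : ℤ), FreeGroup.IsReduced L → (∀ x ∈ L, ¬ Y x.1) →
      (L.map P0).prod = T l → L = [] ∧ l = 0) :
    ∃ f : SemidirectProduct (FreeGroup I) (Multiplicative ℤ) φ →* GL m K,
      Function.Injective f := by
  classical
  have hc := compat φ (FreeGroup.lift (letterUnit P0 P1 z h1 h2)) t (by
    intro i
    rw [hφ i, FreeGroup.lift_apply_of])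
  refine ⟨SemidirectProduct.lift (FreeGroup.lift (letterUnit P0 P1 z h1 h2)) (zpowersHom (GL m K) t)
    hc, ?_⟩
  rw [injective_iff_map_eq_one]
  rintro ⟨w, s⟩ hws
  have hws' : FreeGroup.lift (letterUnit P0 P1 z h1 h2) w * t ^ (Multiplicative.toAdd s) = 1 := by
    have : (SemidirectProduct.mk w s : SemidirectProduct (FreeGroup I) (Multiplicative ℤ) φ)
        = SemidirectProduct.inl w * SemidirectProduct.inr s := by
      ext <;> simp
    rw [this, map_mul, SemidirectProduct.lift_inl, SemidirectProduct.lift_inr] at hws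
    simpa [zpowersHom_apply] using hws
  have hw : FreeGroup.lift (letterUnit P0 P1 z h1 h2) w = t ^ (-(Multiplicative.toAdd s)) := by
    rw [_root_.zpow_neg]
    exact eq_inv_of_mul_eq_one_left hws'
  have hw2 : ((w.toWord.map (letterMat P0 P1 z)).prod : Matrix m m K)
      = (T (-(Multiplicative.toAdd s))).map (algebraMap k K) := by
    rw [← lift_mk P0 P1 z h1 h2, FreeGroup.mk_toWord, hw, hT]
  have hred : FreeGroup.IsReduced w.toWord := FreeGroup.isReduced_toWord
  by_cases hY : ∃ x ∈ w.toWord, Y x.1
  · exact absurd (top_eq_zero Y P0 P1 z hz hP _ _ hw2 hY) (htop _ hred hY)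
  · push Not at hY
    have h3 : (w.toWord.map P0).prod = T (-(Multiplicative.toAdd s)) := by
      have h4 : (w.toWord.map (letterMat P0 P1 z)).prod
          = ((w.toWord.map P0).prod).map (algebraMap k K) := by
        have : ((w.toWord.map P0).prod).map (algebraMap k K)
            = (algebraMap k K).mapMatrix (w.toWord.map P0).prod := rfl
        rw [this, map_list_prod, List.map_map]
        congr 1
        apply List.map_congr_left
        intro x hx
        simp [letterMat, hP x (hY x hx)]
      rw [h4] at hw2
      have hinj : Function.Injective (algebraMap k K) := (algebraMap k K).injective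
      ext i j
      apply hinj
      exact congrFun (congrFun hw2 i) j
    obtain ⟨hL, hl⟩ := hbase _ _ hred hY h3
    have hw1 : w = 1 := FreeGroup.toWord_eq_nil_iff.1 hL
    have hs1 : s = 1 := by
      have : Multiplicative.toAdd s = 0 := by omega
      exact this
    subst hw1 hs1
    rfl

end Pool.Agent.W2helper25.FBC
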