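import Pool.Agent.W2helper25.FBC.Tub

/-!
Assembly of the faithful representation of the tubular free-by-cyclic groups.
-/

set_option autoImplicit false
set_option linter.unusedSectionVars false
set_option linter.unusedSimpArgs false

namespace Pool.Agent.W2helper25.FBC

open Matrix

variable {ι : Type} [Fintype ι] [DecidableEq ι] {K : Type*} [Field K] [Algebra ℚ K]

/-- The base change map. -/
noncomputable abbrev bc (K : Type*) [Field K] [Algebra ℚ K] :
    Matrix (ι ⊕ ι) (ι ⊕ ι) ℚ →+* Matrix (ι ⊕ ι) (ι ⊕ ι) K :=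
  (algebraMap ℚ K).mapMatrix

/-- The unipotent units over the big field. -/
noncomputable def UK (K : Type*) [Field K] [Algebra ℚ K] :
    Multiplicative (ι → ℚ) →* GL (ι ⊕ ι) K where
  toFun f := ⟨bc K (U (Multiplicative.toAdd f)), bc K (U (-(Multiplicative.toAdd f))),
    by rw [← map_mul, U_mul, add_neg_cancel, U_zero, map_one],
    by rw [← map_mul, U_mul, neg_add_cancel, U_zero, map_one]⟩
  map_one' := by
    ext1
    show bc K (U 0) = 1
    rw [U_zero, map_one]
  map_mul' f g := by
    ext1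
    show bc K (U (Multiplicative.toAdd f + Multiplicative.toAdd g)) = _
    rw [← U_mul, map_mul]
    rfl

theorem UK_zpow (f : ι → ℚ) (l : ℤ) :
    (((UK K (Multiplicative.ofAdd f)) ^ l : GL (ι ⊕ ι) K) : Matrix (ι ⊕ ι) (ι ⊕ ι) K)
      = bc K (U (l • f)) := by
  rw [← map_zpow, ← ofAdd_zsmul]
  rfl

namespace Dat

variable {n : ℕ} (D : Dat ι n)

theorem letter_zero (z : K) (b : Bool) :
    letterMat D.P0 D.P1 z (0, b) = bc K (U (fun _ => cond b 1 (-1))) := by
  have h : D.P1 (0, b) = 0 := rfl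
  have h2 : D.P0 (0, b) = U (fun _ => cond b 1 (-1)) := by cases b <;> rfl
  rw [letterMat, h, h2]
  ext i j
  simp

theorem letter_succ_true (z : K) (i : Fin n) :
    letterMat D.P0 D.P1 z (i.succ, true)
      = bc K (D.Phi i) + z • bc K (vecMulVec (D.ps (i, true)) (D.th (i, false))) := rfl

theorem letter_succ_false (z : K) (i : Fin n) :
    letterMat D.P0 D.P1 z (i.succ, false)
      = bc K (D.Phi' i) - z • bc K (vecMulVec (D.ps (i, false)) (D.th (i, true))) := by
  have h : D.P1 (i.succ, false) = -(vecMulVec (D.ps (i, false)) (D.th (i, true))) := rfl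
  have h2 : D.P0 (i.succ, false) = D.Phi' i := rfl
  have h3 : (-(vecMulVec (D.ps (i, false)) (D.th (i, true)))).map (algebraMap ℚ K)
    = -(bc K (vecMulVec (D.ps (i, false)) (D.th (i, true)))) := by
    ext a b; simp
  rw [letterMat, h, h2, h3, smul_neg, ← sub_eq_add_neg]
  rfl

theorem th_ps_zero (x : Fin n × Bool) : D.th x ⬝ᵥ D.ps x = 0 := by
  rw [th, ps, theta_psi]; simp

theorem inv1 (z : K) (i : Fin (n + 1)) :
    letterMat D.P0 D.P1 z (i, true) * letterMat D.P0 D.P1 z (i, false) = 1 := by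
  refine Fin.cases ?_ (fun i => ?_) i
  · rw [letter_zero, letter_zero, ← map_mul, U_mul]
    have : ((fun _ => cond true 1 (-1)) + fun _ => cond false 1 (-1) : ι → ℚ) = 0 := by
      funext c; simp
    rw [this, U_zero, map_one]
  · rw [letter_succ_true, letter_succ_false, add_mul, mul_sub, mul_sub, smul_mul_smul_comm,
      mul_smul_comm, smul_mul_assoc, ← map_mul, ← map_mul, ← map_mul, ← map_mul, D.Phi_mul,
      vecMulVec_mul_vecMulVec, D.th_ps_zero, mul_vecMulVec, D.Phi_ps, vecMulVec_mul, D.th_Phi']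
    simp

theorem inv2 (z : K) (i : Fin (n + 1)) :
    letterMat D.P0 D.P1 z (i, false) * letterMat D.P0 D.P1 z (i, true) = 1 :=
  mul_eq_one_comm.1 (D.inv1 z i)

theorem rel (z : K) (i : Fin n) :
    letterMat D.P0 D.P1 z (i.succ, true) * bc K (U (D.hq i))
      = bc K (U (D.hp i)) * letterMat D.P0 D.P1 z (i.succ, true) := by
  rw [letter_succ_true, add_mul, mul_add, smul_mul_assoc, mul_smul_comm, ← map_mul, ← map_mul,
    ← map_mul, ← map_mul, D.Phi_rel, vecMulVec_mul, D.th_hq, mul_vecMulVec, D.hp_ps]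

theorem main (z : K) (hz : Transcendental ℚ z⁻¹) (p q : Fin n → ℤ)
    (hp : ∀ i, D.v (D.pp i) = -p i) (hq : ∀ i, D.v (D.qq i) = q i)
    (φ : Multiplicative ℤ →* MulAut (FreeGroup (Fin (n + 1))))
    (h0 : φ (Multiplicative.ofAdd 1) (FreeGroup.of 0) = FreeGroup.of 0)
    (h : ∀ i : Fin n, φ (Multiplicative.ofAdd 1) (FreeGroup.of i.succ)
      = FreeGroup.of 0 ^ p i * FreeGroup.of i.succ * FreeGroup.of 0 ^ q i) :
    ∃ f : SemidirectProduct (FreeGroup (Fin (n + 1))) (Multiplicative ℤ) φ →* GL (ι ⊕ ι) K,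
      Function.Injective f := by
  let t : GL (ι ⊕ ι) K := UK K (Multiplicative.ofAdd (fun c => -(D.v c : ℚ)))
  let A : GL (ι ⊕ ι) K := UK K (Multiplicative.ofAdd (fun _ => (1 : ℚ)))
  have hA : letterUnit D.P0 D.P1 z (D.inv1 z) (D.inv2 z) 0 = A := by
    ext1
    show letterMat D.P0 D.P1 z (0, true) = bc K (U (fun _ => (1 : ℚ)))
    rw [letter_zero]
    rfl
  have hAt : A * t = t * A :=
    ((Commute.all (Multiplicative.ofAdd (fun _ : ι => (1 : ℚ)))
      (Multiplicative.ofAdd (fun c => -(D.v c : ℚ)))).map (UK K)).eq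
  refine criterion (fun i : Fin (n + 1) => i ≠ 0) D.P0 D.P1 z hz (D.inv1 z) (D.inv2 z) ?_
    (fun l => U (l • (fun c => -(D.v c : ℚ)))) t ?_ φ ?_ D.top_ne ?_
  · rintro ⟨i, b⟩ hi
    have hi : i = 0 := not_not.1 hi
    subst hi
    rfl
  · intro l
    rw [UK_zpow]
    rfl
  · intro i
    refine Fin.cases ?_ (fun i => ?_) i
    · rw [h0, FreeGroup.lift_apply_of, hA, eq_mul_inv_iff_mul_eq, hAt]
    · rw [h i, map_mul, map_mul, map_zpow, map_zpow, FreeGroup.lift_apply_of,
        FreeGroup.lift_apply_of, hA]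
      set B := letterUnit D.P0 D.P1 z (D.inv1 z) (D.inv2 z) i.succ with hB
      have key : B * (A ^ q i * t) = (A ^ (-p i) * t) * B := by
        have e1 : A ^ q i * t = UK K (Multiplicative.ofAdd (D.hq i)) := by
          rw [← map_zpow, ← map_mul, ← ofAdd_zsmul, ← ofAdd_add]
          congr 2
          funext c
          simp [Dat.hq, hq i]
          ring
        have e2 : A ^ (-p i) * t = UK K (Multiplicative.ofAdd (D.hp i)) := by
          rw [← map_zpow, ← map_mul, ← ofAdd_zsmul, ← ofAdd_add]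
          congr 2
          funext c
          simp [Dat.hp, hp i]
          ring
        rw [e1, e2]
        ext1
        exact D.rel z i
      have e3 : A ^ p i * B * A ^ q i * t = t * B := by
        calc A ^ p i * B * A ^ q i * t = A ^ p i * (B * (A ^ q i * t)) := by group
          _ = A ^ p i * ((A ^ (-p i) * t) * B) := by rw [key]
          _ = t * B := by group
      rw [eq_mul_inv_iff_mul_eq, e3]
  · intro L l hL hY hE
    obtain ⟨k, hk, hk0⟩ := D.base_word' L hL hY
    rw [hk] at hE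
    have h2 := U_injective hE
    have h3 := congrFun h2 D.c1
    have h4 := congrFun h2 D.c2
    simp only [Pi.smul_apply, zsmul_eq_mul, mul_neg] at h3 h4
    have h5 : (k : ℤ) = -(l * D.v D.c1) := by exact_mod_cast h3
    have h6 : (k : ℤ) = -(l * D.v D.c2) := by exact_mod_cast h4
    have h7 : l * (D.v D.c1 - D.v D.c2) = 0 := by
      have : l * D.v D.c1 = l * D.v D.c2 := by omega
      rw [mul_sub, this, sub_self]
    have h8 : D.v D.c1 - D.v D.c2 ≠ 0 := by
      intro h9
      exact D.hc (D.vinj (by omega))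
    have hl : l = 0 := by
      rcases mul_eq_zero.1 h7 with h | h
      · exact h
      · exact absurd h h8
    subst hl
    exact ⟨hk0 (by simpa using h5), rfl⟩

end Dat

end Pool.Agent.W2helper25.FBC
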