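import Mathlib

/-!
Top coefficient argument for words in a free group.

`I` is the set of letters, `Y` a predicate singling out the stable letters.  Each signed letter is
given a matrix `t`.  For stable letters `t` is the rank one matrix `ψ ⊗ θ`.
-/

set_option autoImplicit false

namespace Pool.Agent.W2helper25.FBC

open Matrix

theorem red_tail {I : Type*} {a : I × Bool} {L : List (I × Bool)}
    (h : FreeGroup.IsReduced (a :: L)) : FreeGroup.IsReduced L :=
  List.IsChain.tail h

theorem red_left {I : Type*} {L1 L2 : List (I × Bool)}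
    (h : FreeGroup.IsReduced (L1 ++ L2)) : FreeGroup.IsReduced L1 :=
  List.IsChain.left_of_append h

section comb

variable {k : Type*} [Field k] {m : Type*} [Fintype m] [DecidableEq m] {I : Type*}

/-- The combinatorial core: a reduced word containing a stable letter has nonzero top part. -/
theorem top_word (Y : I → Prop) (t : I × Bool → Matrix m m k)
    (ψ θ : I × Bool → m → k) (w0 : m → k)
    (ht : ∀ l : I × Bool, Y l.1 → t l = vecMulVec (ψ l) (θ l))
    (hw0 : ∀ (l : I × Bool), Y l.1 → ∀ L : List (I × Bool), (∀ x ∈ L, ¬ Y x.1) →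
      FreeGroup.IsReduced L → θ l ⬝ᵥ ((L.map t).prod *ᵥ w0) ≠ 0)
    (hpair : ∀ (l l' : I × Bool), Y l.1 → Y l'.1 → ∀ L : List (I × Bool), (∀ x ∈ L, ¬ Y x.1) →
      FreeGroup.IsReduced L → (L = [] → l.1 = l'.1 → l.2 = l'.2) →
      θ l ⬝ᵥ ((L.map t).prod *ᵥ ψ l') ≠ 0)
    (L : List (I × Bool)) (hL : FreeGroup.IsReduced L) :
    (∀ x ∈ L, ¬ Y x.1) ∨ ∃ (L1 L2 : List (I × Bool)) (l : I × Bool) (c : k),
      L = L1 ++ l :: L2 ∧ (∀ x ∈ L1, ¬ Y x.1) ∧ Y l.1 ∧ c ≠ 0 ∧
      (L.map t).prod *ᵥ w0 = c • ((L1.map t).prod *ᵥ ψ l) := by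
  classical
  induction L with
  | nil => left; simp
  | cons a L ih =>
    have hLr : FreeGroup.IsReduced L := red_tail hL
    by_cases ha : Y a.1
    · right
      refine ⟨[], L, a, ?_⟩
      rcases ih hLr with h | ⟨L1, L2, l, c, hE, hL1, hl, hc, hv⟩
      · refine ⟨θ a ⬝ᵥ ((L.map t).prod *ᵥ w0), by simp, by simp, ha, hw0 a ha L h hLr, ?_⟩
        rw [List.map_cons, List.prod_cons, ← mulVec_mulVec, ht a ha, vecMulVec_mulVec]
        simp
      · refine ⟨c * (θ a ⬝ᵥ ((L1.map t).prod *ᵥ ψ l)), by simp, by simp, ha,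
          mul_ne_zero hc (hpair a l ha hl L1 hL1 ?_ ?_), ?_⟩
        · exact red_left (L2 := l :: L2) (hE ▸ hLr)
        · rintro rfl h1
          have : FreeGroup.IsReduced (a :: l :: L2) := by simpa [hE] using hL
          rw [FreeGroup.isReduced_cons_cons] at this
          exact this.1 h1
        · rw [List.map_cons, List.prod_cons, ← mulVec_mulVec, hv, ht a ha, vecMulVec_mulVec]
          simp only [List.map_nil, List.prod_nil, one_mulVec, dotProduct_smul, op_smul_eq_smul,
            smul_eq_mul]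
    · rcases ih hLr with h | ⟨L1, L2, l, c, hE, hL1, hl, hc, hv⟩
      · left
        intro x hx
        rcases List.mem_cons.1 hx with rfl | hx
        · exact ha
        · exact h x hx
      · right
        refine ⟨a :: L1, L2, l, c, by simp [hE], ?_, hl, hc, ?_⟩
        · intro x hx
          rcases List.mem_cons.1 hx with rfl | hx
          · exact ha
          · exact hL1 x hx
        · rw [List.map_cons, List.prod_cons, ← mulVec_mulVec, hv, List.map_cons, List.prod_cons,
            ← mulVec_mulVec, mulVec_smul]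

/-- A reduced word containing a stable letter has nonzero top part. -/
theorem top_ne_zero (Y : I → Prop) (t : I × Bool → Matrix m m k)
    (ψ θ : I × Bool → m → k) (w0 : m → k)
    (ht : ∀ l : I × Bool, Y l.1 → t l = vecMulVec (ψ l) (θ l))
    (hw0 : ∀ (l : I × Bool), Y l.1 → ∀ L : List (I × Bool), (∀ x ∈ L, ¬ Y x.1) →
      FreeGroup.IsReduced L → θ l ⬝ᵥ ((L.map t).prod *ᵥ w0) ≠ 0)
    (hpair : ∀ (l l' : I × Bool), Y l.1 → Y l'.1 → ∀ L : List (I × Bool), (∀ x ∈ L, ¬ Y x.1) →
      FreeGroup.IsReduced L → (L = [] → l.1 = l'.1 → l.2 = l'.2) →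
      θ l ⬝ᵥ ((L.map t).prod *ᵥ ψ l') ≠ 0)
    (hinj : ∀ (l' : I × Bool), Y l'.1 → ∀ L : List (I × Bool), (∀ x ∈ L, ¬ Y x.1) →
      FreeGroup.IsReduced L → (L.map t).prod *ᵥ ψ l' ≠ 0)
    (L : List (I × Bool)) (hL : FreeGroup.IsReduced L) (hY : ∃ x ∈ L, Y x.1) :
    (L.map t).prod ≠ 0 := by
  intro h0
  rcases top_word Y t ψ θ w0 ht hw0 hpair L hL with h | ⟨L1, L2, l, c, hE, hL1, hl, hc, hv⟩
  · obtain ⟨x, hx, hYx⟩ := hY
    exact h x hx hYx
  · rw [h0, zero_mulVec] at hv
    rcases smul_eq_zero.1 hv.symm with h | h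
    · exact hc h
    · exact hinj l hl L1 hL1 (red_left (L2 := l :: L2) (hE ▸ hL)) h

end comb

section poly

open Polynomial

variable {k : Type*} [Field k] {K : Type*} [Field K] [Algebra k K]
  {m : Type*} [Fintype m] [DecidableEq m] {I : Type*}

/-- The matrix of a signed letter over the big field. -/
noncomputable def letterMat (P0 P1 : I × Bool → Matrix m m k) (z : K) (l : I × Bool) :
    Matrix m m K :=
  (P0 l).map (algebraMap k K) + z • (P1 l).map (algebraMap k K)

open Classical in
/-- The homogenised matrix over the polynomial ring. -/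
noncomputable def hatMat (Y : I → Prop) (P0 P1 : I × Bool → Matrix m m k) (l : I × Bool) :
    Matrix m m k[X] :=
  if Y l.1 then (X : k[X]) • (P0 l).map (C : k →+* k[X]) + (P1 l).map (C : k →+* k[X])
  else (P0 l).map (C : k →+* k[X])

open Classical in
/-- The top matrix. -/
noncomputable def topMat (Y : I → Prop) (P0 P1 : I × Bool → Matrix m m k) (l : I × Bool) :
    Matrix m m k :=
  if Y l.1 then P1 l else P0 l

theorem hatMat_eval_zero (Y : I → Prop) (P0 P1 : I × Bool → Matrix m m k) (l : I × Bool) :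
    (evalRingHom (0 : k)).mapMatrix (hatMat Y P0 P1 l) = topMat Y P0 P1 l := by
  classical
  unfold hatMat topMat
  split_ifs with h
  · ext i j
    simp
  · ext i j
    simp

theorem hatMat_aeval (Y : I → Prop) (P0 P1 : I × Bool → Matrix m m k) (z : K) (hz : z ≠ 0)
    (hP : ∀ l : I × Bool, ¬ Y l.1 → P1 l = 0) (l : I × Bool) :
    ((aeval z⁻¹ : k[X] →ₐ[k] K) : k[X] →+* K).mapMatrix (hatMat Y P0 P1 l)
      = (open Classical in if Y l.1 then z⁻¹ else 1) • letterMat P0 P1 z l := by
  classical
  unfold hatMat letterMat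
  split_ifs with h
  · ext i j
    simp [mul_add, hz]
    exact mul_comm _ _
  · ext i j
    simp [hP l h]

/-- The transfer: if the product over the big field is a constant matrix, then the top part
vanishes. -/
theorem top_eq_zero (Y : I → Prop) (P0 P1 : I × Bool → Matrix m m k) (z : K)
    (hz : Transcendental k z⁻¹)
    (hP : ∀ l : I × Bool, ¬ Y l.1 → P1 l = 0) (L : List (I × Bool)) (D : Matrix m m k)
    (hD : (L.map (letterMat P0 P1 z)).prod = D.map (algebraMap k K))
    (hY : ∃ x ∈ L, Y x.1) :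
    (L.map (topMat Y P0 P1)).prod = 0 := by
  classical
  have hz0 : z ≠ 0 := by
    rintro rfl
    rw [_root_.inv_zero] at hz
    exact hz (isAlgebraic_zero)
  have key : ∀ L : List (I × Bool), ∃ r : ℕ, ((∃ x ∈ L, Y x.1) → r ≠ 0) ∧
      ((aeval z⁻¹ : k[X] →ₐ[k] K) : k[X] →+* K).mapMatrix (L.map (hatMat Y P0 P1)).prod
        = (z⁻¹) ^ r • (L.map (letterMat P0 P1 z)).prod := by
    intro L
    induction L with
    | nil => exact ⟨0, by simp, by simp⟩
    | cons a L ih =>
      obtain ⟨r, hr, hE⟩ := ih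
      by_cases ha : Y a.1
      · refine ⟨r + 1, by simp, ?_⟩
        rw [List.map_cons, List.prod_cons, map_mul, hE, hatMat_aeval Y P0 P1 z hz0 hP, if_pos ha,
          List.map_cons, List.prod_cons, smul_mul_smul_comm, pow_succ, mul_comm]
      · refine ⟨r, ?_, ?_⟩
        · rintro ⟨x, hx, hYx⟩
          rcases List.mem_cons.1 hx with rfl | hx
          · exact absurd hYx ha
          · exact hr ⟨x, hx, hYx⟩
        · rw [List.map_cons, List.prod_cons, map_mul, hE, hatMat_aeval Y P0 P1 z hz0 hP, if_neg ha,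
            List.map_cons, List.prod_cons, smul_mul_smul_comm, one_mul]
  obtain ⟨r, hr, hE⟩ := key L
  have hr0 := hr hY
  have hinj : Function.Injective (aeval z⁻¹ : k[X] →ₐ[k] K) :=
    transcendental_iff_injective.1 hz
  have h1 : (L.map (hatMat Y P0 P1)).prod = (X : k[X]) ^ r • D.map (C : k →+* k[X]) := by
    have : ((aeval z⁻¹ : k[X] →ₐ[k] K) : k[X] →+* K).mapMatrix (L.map (hatMat Y P0 P1)).prod
        = ((aeval z⁻¹ : k[X] →ₐ[k] K) : k[X] →+* K).mapMatrix
          ((X : k[X]) ^ r • D.map (C : k →+* k[X])) := by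
      rw [hE, hD]
      ext i j
      simp
      exact mul_comm _ _
    ext1 i j
    apply hinj
    have := congrFun (congrFun this i) j
    simpa using this
  have h2 : (L.map (topMat Y P0 P1)).prod
      = (evalRingHom (0 : k)).mapMatrix (L.map (hatMat Y P0 P1)).prod := by
    rw [map_list_prod, List.map_map]
    congr 1
    apply List.map_congr_left
    intro l _
    exact (hatMat_eval_zero Y P0 P1 l).symm
  rw [h2, h1]
  ext i j
  simp [hr0]

end poly

end Pool.Agent.W2helper25.FBC
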