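import Pool.Agent.W2helper25.FBC.Blocks

/-!
The faithful representation of the tubular free-by-cyclic groups.
-/

set_option autoImplicit false
set_option linter.unusedSectionVars false
set_option linter.unusedSimpArgs false

namespace Pool.Agent.W2helper25.FBC

open Matrix

variable {ι : Type} [Fintype ι] [DecidableEq ι]

/-- The data of the representation: `v c` is the integer attached to the block `c`; `pp i`, `qq i`
are the blocks with integers `-p_i`, `q_i`; `be` are the parameters. -/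
structure Dat (ι : Type) (n : ℕ) where
  v : ι → ℤ
  vinj : Function.Injective v
  pp : Fin n → ι
  qq : Fin n → ι
  be : Fin n × Bool → ℚ
  hbe : ∀ x y, x ≠ y → ∀ k : ℤ, be x - be y + k ≠ 0
  c1 : ι
  c2 : ι
  hc : c1 ≠ c2

variable {n : ℕ} (D : Dat ι n)

namespace Dat

/-- The swap of the two blocks. -/
def sg (i : Fin n) : Equiv.Perm ι := Equiv.swap (D.pp i) (D.qq i)

/-- The scaling. -/
def sc (i : Fin n) : ι → ℚ := fun c =>
  if c = D.pp i then 1 else ((D.v (D.pp i) : ℚ) - D.v c) / ((D.v (D.qq i) : ℚ) - D.v (D.sg i c))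

theorem sg_pp (i : Fin n) : D.sg i (D.pp i) = D.qq i := Equiv.swap_apply_left _ _

theorem sg_qq (i : Fin n) : D.sg i (D.qq i) = D.pp i := Equiv.swap_apply_right _ _

theorem sg_ne (i : Fin n) {c : ι} (h : c ≠ D.pp i) : D.sg i c ≠ D.qq i := by
  intro h2
  apply h
  have := (D.sg i).injective (h2.trans (D.sg_pp i).symm)
  exact this

theorem sc_ne (i : Fin n) (c : ι) : D.sc i c ≠ 0 := by
  unfold sc
  split_ifs with h
  · exact one_ne_zero
  · apply div_ne_zero
    · intro h2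
      apply h
      have : (D.v (D.pp i) : ℚ) = D.v c := sub_eq_zero.1 h2
      exact (D.vinj (by exact_mod_cast this)).symm
    · intro h2
      apply D.sg_ne i h
      have : (D.v (D.qq i) : ℚ) = D.v (D.sg i c) := sub_eq_zero.1 h2
      exact (D.vinj (by exact_mod_cast this)).symm

theorem sc_rel (i : Fin n) :
    D.sc i * ((fun c => (D.v (D.qq i) : ℚ) - D.v c) ∘ (D.sg i))
      = fun c => (D.v (D.pp i) : ℚ) - D.v c := by
  funext c
  simp only [Pi.mul_apply, Function.comp_apply]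
  unfold sc
  split_ifs with h
  · subst h
    rw [D.sg_pp]; simp
  · apply div_mul_cancel₀
    intro h2
    apply D.sg_ne i h
    have : (D.v (D.qq i) : ℚ) = D.v (D.sg i c) := sub_eq_zero.1 h2
    exact (D.vinj (by exact_mod_cast this)).symm

/-- The off-diagonal part. -/
def dd (i : Fin n) : ι → ℚ := Pi.single (D.pp i) (D.be (i, true) - D.be (i, false))

/-- The intertwiner. -/
def Phi (i : Fin n) : Matrix (ι ⊕ ι) (ι ⊕ ι) ℚ := Ms (D.sc i) (D.dd i) * Q (D.sg i)

/-- The inverse intertwiner. -/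
def Phi' (i : Fin n) : Matrix (ι ⊕ ι) (ι ⊕ ι) ℚ :=
  Q (D.sg i) * Ms (D.sc i)⁻¹ (-((D.sc i)⁻¹ * D.dd i))

theorem sg_sq (i : Fin n) : D.sg i * D.sg i = 1 := Equiv.swap_mul_self _ _

theorem Phi_mul (i : Fin n) : D.Phi i * D.Phi' i = 1 := by
  have hs : D.sc i * (D.sc i)⁻¹ = 1 := by
    funext c; simp [D.sc_ne i c]
  rw [Phi, Phi', Matrix.mul_assoc, ← Matrix.mul_assoc (Q (D.sg i)) (Q (D.sg i)), Q_mul, D.sg_sq,
    Q_one, Matrix.one_mul, Ms_mul, hs]
  have : D.sc i * -((D.sc i)⁻¹ * D.dd i) + D.dd i = 0 := by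
    rw [mul_neg, ← mul_assoc, hs]; simp
  rw [this, Ms_one_zero]

theorem Phi'_mul (i : Fin n) : D.Phi' i * D.Phi i = 1 := by
  have hs : (D.sc i)⁻¹ * D.sc i = 1 := by
    funext c; simp [D.sc_ne i c]
  rw [Phi, Phi', Matrix.mul_assoc, ← Matrix.mul_assoc (Ms _ _) (Ms _ _), Ms_mul, hs]
  have : (D.sc i)⁻¹ * D.dd i + -((D.sc i)⁻¹ * D.dd i) = 0 := by
    ring
  rw [this, Ms_one_zero, Matrix.one_mul, Q_mul, D.sg_sq, Q_one]

/-- Exponents of the two conjugate elements. -/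
def hq (i : Fin n) : ι → ℚ := fun c => (D.v (D.qq i) : ℚ) - D.v c

/-- Exponents of the two conjugate elements. -/
def hp (i : Fin n) : ι → ℚ := fun c => (D.v (D.pp i) : ℚ) - D.v c

theorem Phi_rel (i : Fin n) : D.Phi i * U (D.hq i) = U (D.hp i) * D.Phi i := by
  rw [Phi, Matrix.mul_assoc, Q_U, ← Matrix.mul_assoc, Ms_U, ← Matrix.mul_assoc, U_Ms]
  have h : D.hp i = D.sc i * (D.hq i ∘ (D.sg i)) := (D.sc_rel i).symm
  rw [h, add_comm]

/-- Column vectors of the two sites. -/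
def ps (x : Fin n × Bool) : ι ⊕ ι → ℚ := psi (cond x.2 (D.pp x.1) (D.qq x.1)) (D.be x)

/-- Row vectors of the two sites. -/
def th (x : Fin n × Bool) : ι ⊕ ι → ℚ := theta (cond x.2 (D.pp x.1) (D.qq x.1)) (D.be x)

theorem Phi_ps (i : Fin n) : D.Phi i *ᵥ D.ps (i, false) = D.ps (i, true) := by
  rw [Phi, ← mulVec_mulVec]
  have h1 : D.ps (i, false) = psi (D.sg i (D.pp i)) (D.be (i, false)) := by
    rw [D.sg_pp]; rfl
  rw [h1, Q_psi, Ms_psi]
  have h2 : D.sc i (D.pp i) = 1 := by simp [sc]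
  have h3 : D.dd i (D.pp i) = D.be (i, true) - D.be (i, false) := by simp [dd]
  rw [h2, h3, one_mul, add_sub_cancel]
  rfl

theorem th_Phi (i : Fin n) : D.th (i, true) ᵥ* D.Phi i = D.th (i, false) := by
  rw [Phi, ← vecMul_vecMul]
  have h2 : D.sc i (D.pp i) = 1 := by simp [sc]
  have h1 : D.th (i, true) = theta (D.pp i) (D.be (i, true)) := rfl
  rw [h1, dd, theta_Ms _ _ _ _ h2, theta_Q, D.sg_pp, sub_sub_cancel]
  rfl

theorem th_Phi' (i : Fin n) : D.th (i, false) ᵥ* D.Phi' i = D.th (i, true) := by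
  rw [← D.th_Phi, vecMul_vecMul, D.Phi_mul, vecMul_one]

theorem hq_ps (i : Fin n) : U (D.hq i) *ᵥ D.ps (i, false) = D.ps (i, false) := by
  rw [ps, U_psi]; simp [hq]

theorem hp_ps (i : Fin n) : U (D.hp i) *ᵥ D.ps (i, true) = D.ps (i, true) := by
  rw [ps, U_psi]; simp [hp]

theorem th_hq (i : Fin n) : D.th (i, false) ᵥ* U (D.hq i) = D.th (i, false) := by
  rw [th, theta_U]; simp [hq]

theorem th_hp (i : Fin n) : D.th (i, true) ᵥ* U (D.hp i) = D.th (i, true) := by
  rw [th, theta_U]; simp [hp]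

/-- Constant part of the letters. -/
def P0 (l : Fin (n + 1) × Bool) : Matrix (ι ⊕ ι) (ι ⊕ ι) ℚ :=
  Fin.cases (motive := fun _ => Matrix (ι ⊕ ι) (ι ⊕ ι) ℚ)
    (cond l.2 (U (fun _ => 1)) (U (fun _ => -1)))
    (fun i => cond l.2 (D.Phi i) (D.Phi' i)) l.1

/-- Linear part of the letters. -/
def P1 (l : Fin (n + 1) × Bool) : Matrix (ι ⊕ ι) (ι ⊕ ι) ℚ :=
  Fin.cases (motive := fun _ => Matrix (ι ⊕ ι) (ι ⊕ ι) ℚ)
    0
    (fun i => cond l.2 (vecMulVec (D.ps (i, true)) (D.th (i, false)))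
      (-vecMulVec (D.ps (i, false)) (D.th (i, true)))) l.1

theorem theta_psi_site (x y : Fin n × Bool) (k : ℤ) (h : k = 0 → x ≠ y) :
    D.th x ⬝ᵥ (U (fun _ => (k : ℚ)) *ᵥ D.ps y) ≠ 0 := by
  rw [ps, th, U_psi, theta_psi]
  split_ifs with hc
  · by_cases hxy : x = y
    · subst hxy
      have hk : k ≠ 0 := fun h0 => h h0 rfl
      have : D.be x + (k : ℚ) - D.be x = k := by ring
      rw [this]
      exact_mod_cast hk
    · have := D.hbe y x (Ne.symm hxy) k
      have h2 : D.be y + (k : ℚ) - D.be x = D.be y - D.be x + k := by ring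
      rw [h2]
      exact this
  · exact one_ne_zero

/-- Words in the base letter. -/
theorem base_word (L : List (Fin (n + 1) × Bool)) (hL : FreeGroup.IsReduced L)
    (h0 : ∀ x ∈ L, ¬ (x.1 ≠ 0)) :
    ∃ k : ℤ, (L.map (D.P0)).prod = U (fun _ => (k : ℚ)) ∧
      ((L = [] ∧ k = 0) ∨ ∃ b L', L = (0, b) :: L' ∧ (b = true → 0 < k) ∧ (b = false → k < 0)) := by
  induction L with
  | nil => exact ⟨0, by simp [U_zero, ← Pi.zero_def], Or.inl ⟨rfl, rfl⟩⟩
  | cons a L ih =>
    have hLr : FreeGroup.IsReduced L := red_tail hL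
    obtain ⟨k, hk, hk2⟩ := ih hLr (fun x hx => h0 x (List.mem_cons_of_mem _ hx))
    have ha : a.1 = 0 := not_not.1 (h0 a List.mem_cons_self)
    obtain ⟨a1, b⟩ := a
    simp only at ha
    subst ha
    refine ⟨(cond b 1 (-1)) + k, ?_, Or.inr ⟨b, L, rfl, ?_, ?_⟩⟩
    · rw [List.map_cons, List.prod_cons, hk]
      cases b
      · have : D.P0 (0, false) = U (fun _ => -1) := rfl
        rw [this, U_mul]
        congr 1
        funext c
        simp
      · have : D.P0 (0, true) = U (fun _ => 1) := rfl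
        rw [this, U_mul]
        congr 1
        funext c
        simp
    · rintro rfl
      rcases hk2 with ⟨-, rfl⟩ | ⟨b', L', rfl, h1, h2⟩
      · simp
      · rw [FreeGroup.isReduced_cons_cons] at hL
        have : b' = true := (hL.1 rfl).symm
        have := h1 this
        simp only [cond_true]; omega
    · rintro rfl
      rcases hk2 with ⟨-, rfl⟩ | ⟨b', L', rfl, h1, h2⟩
      · simp
      · rw [FreeGroup.isReduced_cons_cons] at hL
        have : b' = false := (hL.1 rfl).symm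
        have := h2 this
        simp only [cond_false]; omega

/-- Words in the base letter. -/
theorem base_word' (L : List (Fin (n + 1) × Bool)) (hL : FreeGroup.IsReduced L)
    (h0 : ∀ x ∈ L, ¬ (x.1 ≠ 0)) :
    ∃ k : ℤ, (L.map (D.P0)).prod = U (fun _ => (k : ℚ)) ∧ (k = 0 → L = []) := by
  obtain ⟨k, hk, h⟩ := D.base_word L hL h0
  refine ⟨k, hk, fun hk0 => ?_⟩
  rcases h with ⟨h, -⟩ | ⟨b, L', -, h1, h2⟩
  · exact h
  · cases b
    · have := h2 rfl; omega
    · have := h1 rfl; omega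

/-- Words in the base letter: the top matrices are the constant matrices. -/
theorem topMat_base (L : List (Fin (n + 1) × Bool)) (h0 : ∀ x ∈ L, ¬ (x.1 ≠ 0)) :
    (L.map (topMat (fun i : Fin (n + 1) => i ≠ 0) D.P0 D.P1)) = L.map D.P0 := by
  apply List.map_congr_left
  intro x hx
  unfold topMat
  rw [if_neg (h0 x hx)]

/-- The top part of a reduced word with a stable letter does not vanish. -/
theorem top_ne (L : List (Fin (n + 1) × Bool)) (hL : FreeGroup.IsReduced L)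
    (hY : ∃ x ∈ L, x.1 ≠ 0) :
    (L.map (topMat (fun i : Fin (n + 1) => i ≠ 0) D.P0 D.P1)).prod ≠ 0 := by
  let ψ : Fin (n + 1) × Bool → ι ⊕ ι → ℚ := fun l =>
    Fin.cases (motive := fun _ => ι ⊕ ι → ℚ) 0
      (fun i => cond l.2 (D.ps (i, true)) (-D.ps (i, false))) l.1
  let θ : Fin (n + 1) × Bool → ι ⊕ ι → ℚ := fun l =>
    Fin.cases (motive := fun _ => ι ⊕ ι → ℚ) 0
      (fun i => D.th (i, !l.2)) l.1
  have hψ : ∀ (l : Fin (n + 1) × Bool), l.1 ≠ 0 → ∃ (i : Fin n) (e : ℚ), l.1 = i.succ ∧ e ≠ 0 ∧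
      ψ l = e • D.ps (i, l.2) := by
    rintro ⟨i, b⟩ hi
    obtain ⟨j, rfl⟩ := Fin.exists_succ_eq.2 hi
    cases b
    · exact ⟨j, -1, rfl, by norm_num, by simp [ψ]⟩
    · exact ⟨j, 1, rfl, by norm_num, by simp [ψ]⟩
  have hθ : ∀ (i : Fin n) (b : Bool), θ (i.succ, b) = D.th (i, !b) := fun i b => rfl
  refine top_ne_zero (fun i : Fin (n + 1) => i ≠ 0) _ ψ θ w0 ?_ ?_ ?_ ?_ L hL hY
  · rintro ⟨i, b⟩ hi
    obtain ⟨j, rfl⟩ := Fin.exists_succ_eq.2 hi
    unfold topMat
    rw [if_pos hi]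
    cases b
    · show -vecMulVec (D.ps (j, false)) (D.th (j, true)) = vecMulVec (-D.ps (j, false)) (D.th (j, true))
      rw [neg_vecMulVec]
    · rfl
  · rintro ⟨i, b⟩ hi L1 hL1 hr
    obtain ⟨j, rfl⟩ := Fin.exists_succ_eq.2 hi
    rw [topMat_base D L1 hL1]
    obtain ⟨k, hk, -⟩ := D.base_word' L1 hr hL1
    rw [hk, U_w0, hθ, th, theta_w0]
    exact one_ne_zero
  · rintro ⟨i, b⟩ l' hi hi' L1 hL1 hr hne
    obtain ⟨j, rfl⟩ := Fin.exists_succ_eq.2 hi
    obtain ⟨j', e, hj', he, hψe⟩ := hψ l' hi'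
    rw [topMat_base D L1 hL1]
    obtain ⟨k, hk, hk0⟩ := D.base_word' L1 hr hL1
    rw [hk, hψe, mulVec_smul, dotProduct_smul, hθ]
    apply smul_ne_zero he
    apply D.theta_psi_site
    intro h0 hE
    have h1 := hne (hk0 h0)
    simp only at h1
    rw [Prod.mk.injEq] at hE
    obtain ⟨rfl, hb⟩ := hE
    have h2 := h1 hj'.symm
    rw [← h2] at hb
    simp at hb
  · intro l' hi' L1 hL1 hr hz
    obtain ⟨j', e, hj', he, hψe⟩ := hψ l' hi'
    rw [topMat_base D L1 hL1] at hz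
    obtain ⟨k, hk, -⟩ := D.base_word' L1 hr hL1
    rw [hk, hψe, mulVec_smul, ps, U_psi] at hz
    rcases smul_eq_zero.1 hz with h | h
    · exact he h
    · exact psi_ne_zero _ _ h

end Dat

end Pool.Agent.W2helper25.FBC
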